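import Pool.Agent.Helper53.WR.Defs

/-!
Piece WR-A1: random shifts.
-/

set_option autoImplicit false
set_option linter.unusedVariables false

namespace Pool.Agent.Helper52.WR

open Finset

lemma two_rpow_le {t : ℝ} (h0 : 0 ≤ t) (h1 : t ≤ 1) : (2 : ℝ) ^ t ≤ 1 + t := by
  have h := rpow_one_add_le_one_add_mul_self (s := 1) (by norm_num) h0 h1
  have h2 : (1 : ℝ) + 1 = 2 := by norm_num
  rw [h2, mul_one] at h
  exact h

lemma exp_nine : Real.exp 9 ≤ 2 ^ 13 := by
  have h1 : Real.exp 9 = Real.exp 1 ^ 9 := by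
    rw [← Real.exp_nat_mul]
    norm_num
  rw [h1]
  have h2 : Real.exp 1 ≤ 2.7182818286 := Real.exp_one_lt_d9.le
  calc Real.exp 1 ^ 9 ≤ (2.7182818286 : ℝ) ^ 9 := pow_le_pow_left₀ (Real.exp_pos _).le h2 9
    _ ≤ 2 ^ 13 := by norm_num

/-- WR-A1 (random shifts τ). -/
theorem tau_exists {q : ℕ} [Fact q.Prime] (Γ : Finset (ZMod q × ZMod q)) (hΓ : Γ.card ≤ 3 * q)
    {J : Type} (s : Finset J) (w : J → ZMod q × ZMod q → ZMod q × ZMod q → ℝ) (m : J → ℝ) (x : ℕ)
    (hw : ∀ j ∈ s, ∀ u v, 0 ≤ w j u v) (hm : ∀ j ∈ s, ∀ u, ∑ v, w j u v ≤ m j)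
    (hx : (s.card : ℝ) * 2 ^ 13 < 2 ^ x) :
    ∃ τ : ZMod q × ZMod q → ZMod q × ZMod q, ∀ j ∈ s,
      ∑ u ∈ Γ, ∑ z ∈ Γ, w j u (z + τ u) ≤ x * m j := by
  classical
  have hq : 0 < q := (Fact.out : q.Prime).pos
  have hqR : (0 : ℝ) < q := by exact_mod_cast hq
  by_contra hcon
  push Not at hcon
  let F := ZMod q × ZMod q
  have hcardF : Fintype.card F = q ^ 2 := by
    change Fintype.card (ZMod q × ZMod q) = q ^ 2
    rw [Fintype.card_prod, ZMod.card, sq]
  let N : J → F → F → ℝ := fun j u v => ∑ z ∈ Γ, w j u (z + v)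
  have hN0 : ∀ j ∈ s, ∀ u v, 0 ≤ N j u v := fun j hj u v => Finset.sum_nonneg fun z _ => hw j hj _ _
  have hNm : ∀ j ∈ s, ∀ u v, N j u v ≤ m j := by
    intro j hj u v
    refine le_trans ?_ (hm j hj u)
    change ∑ z ∈ Γ, w j u (z + v) ≤ _
    calc ∑ z ∈ Γ, w j u (z + v) ≤ ∑ z, w j u (z + v) :=
          Finset.sum_le_sum_of_subset_of_nonneg (Finset.subset_univ _) fun z _ _ => hw j hj _ _
      _ = ∑ z, w j u z := Fintype.sum_equiv (Equiv.addRight v) _ _ fun z => rfl
  have hNs : ∀ j ∈ s, ∀ u, ∑ v, N j u v ≤ 3 * q * m j := by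
    intro j hj u
    have hm0 : 0 ≤ m j := le_trans (Finset.sum_nonneg fun v _ => hw j hj u v) (hm j hj u)
    change ∑ v, ∑ z ∈ Γ, w j u (z + v) ≤ _
    rw [Finset.sum_comm]
    have h1 : ∀ z ∈ Γ, ∑ v, w j u (z + v) ≤ m j := by
      intro z _
      refine le_trans (le_of_eq ?_) (hm j hj u)
      exact Fintype.sum_equiv (Equiv.addLeft z) _ _ fun v => rfl
    refine le_trans (Finset.sum_le_card_nsmul _ _ _ h1) ?_
    rw [nsmul_eq_mul]
    have h2 : (Γ.card : ℝ) ≤ 3 * q := by exact_mod_cast hΓ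
    exact mul_le_mul_of_nonneg_right h2 hm0
  let Y : J → (F → F) → ℝ := fun j τ =>
    if 0 < m j then ∏ u ∈ Γ, (1 + N j u (τ u) / m j) else 0
  have hY0 : ∀ j ∈ s, ∀ τ, 0 ≤ Y j τ := by
    intro j hj τ
    change 0 ≤ if 0 < m j then ∏ u ∈ Γ, (1 + N j u (τ u) / m j) else 0
    split_ifs with h
    · refine Finset.prod_nonneg fun u _ => ?_
      have := div_nonneg (hN0 j hj u (τ u)) h.le
      linarith
    · exact le_rfl
  have hlow : ∀ τ : F → F, (2 : ℝ) ^ x < ∑ j ∈ s, Y j τ := by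
    intro τ
    obtain ⟨j, hj, hbad⟩ := hcon τ
    have hm0 : 0 ≤ m j := le_trans (Finset.sum_nonneg fun v _ => hw j hj 0 v) (hm j hj 0)
    have hmp : 0 < m j := by
      rcases hm0.lt_or_eq with h | h
      · exact h
      · exfalso
        have h1 : ∑ u ∈ Γ, ∑ z ∈ Γ, w j u (z + τ u) ≤ 0 := by
          refine Finset.sum_nonpos fun u _ => ?_
          have := hNm j hj u (τ u)
          rw [← h] at this
          exact this
        rw [← h, mul_zero] at hbad
        exact absurd hbad (not_lt.2 h1)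
    refine lt_of_lt_of_le ?_ (Finset.single_le_sum (fun i hi => hY0 i hi τ) hj)
    change _ < if 0 < m j then ∏ u ∈ Γ, (1 + N j u (τ u) / m j) else 0
    rw [if_pos hmp]
    have h1 : (x : ℝ) < ∑ u ∈ Γ, N j u (τ u) / m j := by
      rw [← Finset.sum_div, lt_div_iff₀ hmp]
      exact hbad
    calc (2 : ℝ) ^ x = (2 : ℝ) ^ (x : ℝ) := (Real.rpow_natCast 2 x).symm
      _ < (2 : ℝ) ^ (∑ u ∈ Γ, N j u (τ u) / m j) :=
          Real.rpow_lt_rpow_of_exponent_lt (by norm_num) h1
      _ = ∏ u ∈ Γ, (2 : ℝ) ^ (N j u (τ u) / m j) := by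
          rw [Real.rpow_sum_of_pos (by norm_num)]
      _ ≤ ∏ u ∈ Γ, (1 + N j u (τ u) / m j) := by
          refine Finset.prod_le_prod (fun u _ => (Real.rpow_pos_of_pos (by norm_num) _).le)
            fun u _ => ?_
          exact two_rpow_le (div_nonneg (hN0 j hj u _) hmp.le)
            ((div_le_one hmp).2 (hNm j hj u _))
  have hup : ∀ j ∈ s, ∑ τ : F → F, Y j τ ≤ Fintype.card (F → F) * 2 ^ 13 := by
    intro j hj
    by_cases hmp : 0 < m j
    · have hYe : ∀ τ : F → F, Y j τ =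
          ∏ u : F, (if u ∈ Γ then 1 + N j u (τ u) / m j else 1) := by
        intro τ
        change (if 0 < m j then ∏ u ∈ Γ, (1 + N j u (τ u) / m j) else 0) = _
        rw [if_pos hmp, Finset.prod_ite_mem, Finset.univ_inter]
      simp_rw [hYe]
      have hsum : ∑ τ : F → F, ∏ u : F, (if u ∈ Γ then 1 + N j u (τ u) / m j else 1) =
          ∏ u : F, ∑ v : F, (if u ∈ Γ then 1 + N j u v / m j else 1) := by
        rw [Finset.prod_univ_sum, Fintype.piFinset_univ]
      rw [hsum]
      have hfac : ∀ u : F, ∑ v : F, (if u ∈ Γ then 1 + N j u v / m j else 1) ≤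
          (q : ℝ) ^ 2 * (if u ∈ Γ then 1 + 3 / (q : ℝ) else 1) := by
        intro u
        by_cases hu : u ∈ Γ
        · simp only [if_pos hu]
          rw [Finset.sum_add_distrib, ← Finset.sum_div, Finset.sum_const, Finset.card_univ, hcardF,
            nsmul_eq_mul, mul_one]
          have h3 : (∑ v, N j u v) / m j ≤ 3 * q := by
            rw [div_le_iff₀ hmp]
            exact hNs j hj u
          push_cast
          have h4 : (q : ℝ) ^ 2 * (1 + 3 / (q : ℝ)) = (q : ℝ) ^ 2 + 3 * q := by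
            field_simp
          rw [h4]
          linarith
        · simp only [if_neg hu]
          rw [Finset.sum_const, Finset.card_univ, hcardF, nsmul_eq_mul]
          push_cast
          exact le_rfl
      have hnn : ∀ u : F, 0 ≤ ∑ v : F, (if u ∈ Γ then 1 + N j u v / m j else 1) := by
        intro u
        refine Finset.sum_nonneg fun v _ => ?_
        split_ifs
        · have := div_nonneg (hN0 j hj u v) hmp.le
          linarith
        · norm_num
      refine le_trans (Finset.prod_le_prod (fun u _ => hnn u) fun u _ => hfac u) ?_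
      rw [Finset.prod_mul_distrib, Finset.prod_const, Finset.card_univ, Finset.prod_ite_mem,
        Finset.univ_inter, Finset.prod_const]
      have h5 : (Fintype.card (F → F) : ℝ) = ((q : ℝ) ^ 2) ^ Fintype.card F := by
        rw [Fintype.card_fun, hcardF]
        push_cast
        rfl
      rw [h5]
      refine mul_le_mul_of_nonneg_left ?_ (by positivity)
      calc (1 + 3 / (q : ℝ)) ^ Γ.card ≤ (Real.exp (3 / q)) ^ Γ.card := by
            refine pow_le_pow_left₀ (by positivity) ?_ _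
            rw [add_comm]
            exact Real.add_one_le_exp _
        _ = Real.exp (Γ.card * (3 / q)) := (Real.exp_nat_mul _ _).symm
        _ ≤ Real.exp 9 := by
            refine Real.exp_le_exp.2 ?_
            have h2 : (Γ.card : ℝ) ≤ 3 * q := by exact_mod_cast hΓ
            calc (Γ.card : ℝ) * (3 / q) ≤ (3 * q) * (3 / q) :=
                  mul_le_mul_of_nonneg_right h2 (by positivity)
              _ = 9 := by field_simp; norm_num
        _ ≤ 2 ^ 13 := exp_nine
    · have h0 : ∀ τ : F → F, Y j τ = 0 := fun τ => if_neg hmp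
      simp_rw [h0]
      rw [Finset.sum_const_zero]
      positivity
  have hcpos : (0 : ℝ) < Fintype.card (F → F) := by
    exact_mod_cast Fintype.card_pos
  have h1 : (Fintype.card (F → F) : ℝ) * 2 ^ x < ∑ τ : F → F, ∑ j ∈ s, Y j τ := by
    have h2 : ∑ _τ : F → F, (2 : ℝ) ^ x = (Fintype.card (F → F) : ℝ) * 2 ^ x := by
      rw [Finset.sum_const, Finset.card_univ, nsmul_eq_mul]
    rw [← h2]
    exact Finset.sum_lt_sum_of_nonempty Finset.univ_nonempty fun τ _ => hlow τ
  rw [Finset.sum_comm] at h1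
  have h3 : ∑ j ∈ s, ∑ τ : F → F, Y j τ ≤ s.card * (Fintype.card (F → F) * 2 ^ 13) := by
    refine le_trans (Finset.sum_le_card_nsmul _ _ _ hup) ?_
    rw [nsmul_eq_mul]
  have h4 : (Fintype.card (F → F) : ℝ) * 2 ^ x <
      (Fintype.card (F → F) : ℝ) * ((s.card : ℝ) * 2 ^ 13) := by
    calc (Fintype.card (F → F) : ℝ) * 2 ^ x < s.card * (Fintype.card (F → F) * 2 ^ 13) :=
          lt_of_lt_of_le h1 h3
      _ = (Fintype.card (F → F) : ℝ) * ((s.card : ℝ) * 2 ^ 13) := by ring
  have h5 := lt_of_mul_lt_mul_left h4 hcpos.le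
  linarith

end Pool.Agent.Helper52.WR
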