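import Pool.Agent.Helper53.WR.Params

/-!
Piece WR-E5b: exponent of the number of exceptional blocks after one step.
-/

set_option autoImplicit false
set_option linter.unusedVariables false

namespace Pool.Agent.Helper52.WR

open Finset Filter
open Pool.Agent.Helper53.WR

open Classical in
/-- The exceptional blocks. -/
noncomputable def badSet (A : Set ℕ) (J : ℕ) : Finset ℕ :=
  (range J).filter (fun j => ¬ CovBlock A j)

lemma badCount_eq (A : Set ℕ) (J : ℕ) : badCount A J = (badSet A J).card := rfl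

lemma mem_badSet {A : Set ℕ} {J j : ℕ} : j ∈ badSet A J ↔ j < J ∧ ¬ CovBlock A j := by
  classical
  unfold badSet
  rw [mem_filter, mem_range]

/-- Start of the covered range number `k`. -/
def bS (M G k : ℕ) : ℕ := 4 * k ^ M + thP M G k + 8

/-- End of the covered range number `k`. -/
def eS (M k : ℕ) : ℕ := 4 * k ^ M + laP M k

lemma bS_succ {M G k : ℕ} (hM : 1 ≤ M) :
    bS M G (k + 1) = eS M k + (64 * (k + 1) ^ G + 13) := by
  unfold bS eS thP
  have h1 := laP_add (k := k) hM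
  have h2 : k ^ M ≤ (k + 1) ^ M := Nat.pow_le_pow_left (Nat.le_succ k) M
  omega

lemma exists_k {M G k0 j : ℕ} (hM : 1 ≤ M) (hj : bS M G k0 ≤ j) :
    ∃ k, k0 ≤ k ∧ bS M G k ≤ j ∧ j < bS M G (k + 1) := by
  classical
  have hex : ∃ k, k0 ≤ k ∧ j < bS M G (k + 1) := by
    refine ⟨max k0 j, le_max_left _ _, ?_⟩
    have h1 : max k0 j + 1 ≤ (max k0 j + 1) ^ M := Nat.le_self_pow (by omega) _
    have h2 : j ≤ max k0 j := le_max_right _ _
    unfold bS
    omega
  obtain ⟨h1, h2⟩ := Nat.find_spec hex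
  refine ⟨Nat.find hex, h1, ?_, h2⟩
  by_contra hcon
  push Not at hcon
  have h3 : k0 < Nat.find hex := by
    rcases h1.lt_or_eq with h | h
    · exact h
    · rw [← h] at hcon
      omega
  have h4 := Nat.find_min hex (m := Nat.find hex - 1) (by omega)
  apply h4
  refine ⟨by omega, ?_⟩
  have h5 : Nat.find hex - 1 + 1 = Nat.find hex := by omega
  rw [h5]
  exact hcon

/-- The indices `k` that matter for blocks below `J`. -/
def Ks (M J : ℕ) : Finset ℕ := (range J).filter (fun k => k ^ M < J)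

lemma mem_Ks {M J k : ℕ} (hM : 1 ≤ M) (h : k ^ M < J) : k ∈ Ks M J := by
  unfold Ks
  rw [mem_filter, mem_range]
  exact ⟨lt_of_le_of_lt (Nat.le_self_pow (by omega) k) h, h⟩

lemma badSet_subset {M G : ℕ} (hM : 1 ≤ M) {T A : Set ℕ} {k0 : ℕ}
    (hcov : ∀ k, k0 ≤ k → ∀ j, 4 * k ^ M + thP M G k + 8 ≤ j → j + 1 ≤ 4 * k ^ M + laP M k →
        (∀ i, i ≤ 5 → CovBlock T (j - 4 * k ^ M - i)) → CovBlock A j) (J : ℕ) :
    badSet A J ⊆ range (bS M G k0) ∪ (Ks M J).biUnion (fun k =>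
      ((range 6).biUnion (fun i => (badSet T (laP M k)).image (fun t => t + 4 * k ^ M + i))) ∪
        Ico (eS M k) (eS M k + (64 * (k + 1) ^ G + 13))) := by
  intro j hj
  rw [mem_badSet] at hj
  obtain ⟨hjJ, hjA⟩ := hj
  rw [mem_union]
  by_cases hb : j < bS M G k0
  · exact Or.inl (mem_range.2 hb)
  · right
    push Not at hb
    obtain ⟨k, hk0, hkb, hkb'⟩ := exists_k hM hb
    rw [mem_biUnion]
    have hkM : k ^ M < J := by
      unfold bS at hkb
      omega
    refine ⟨k, mem_Ks hM hkM, ?_⟩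
    rw [mem_union]
    by_cases he : j + 1 ≤ eS M k
    · left
      have h1 : ∃ i, i ≤ 5 ∧ ¬ CovBlock T (j - 4 * k ^ M - i) := by
        by_contra hcon
        push Not at hcon
        exact hjA (hcov k hk0 j hkb he hcon)
      obtain ⟨i, hi, hiT⟩ := h1
      rw [mem_biUnion]
      refine ⟨i, mem_range.2 (by omega), ?_⟩
      rw [mem_image]
      refine ⟨j - 4 * k ^ M - i, ?_, ?_⟩
      · rw [mem_badSet]
        refine ⟨?_, hiT⟩
        unfold bS at hkb
        unfold eS at he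
        omega
      · unfold bS at hkb
        omega
    · right
      rw [mem_Ico]
      rw [bS_succ hM] at hkb'
      omega

lemma badCount_le {M G : ℕ} (hM : 1 ≤ M) {T A : Set ℕ} {k0 : ℕ}
    (hcov : ∀ k, k0 ≤ k → ∀ j, 4 * k ^ M + thP M G k + 8 ≤ j → j + 1 ≤ 4 * k ^ M + laP M k →
        (∀ i, i ≤ 5 → CovBlock T (j - 4 * k ^ M - i)) → CovBlock A j) (J : ℕ) :
    badCount A J ≤ bS M G k0 + ∑ k ∈ Ks M J,
      (6 * badCount T (laP M k) + (64 * (k + 1) ^ G + 13)) := by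
  rw [badCount_eq]
  refine le_trans (card_le_card (badSet_subset hM hcov J)) ?_
  refine le_trans (card_union_le _ _) ?_
  rw [card_range]
  refine Nat.add_le_add_left ?_ _
  refine le_trans card_biUnion_le ?_
  refine sum_le_sum fun k _ => ?_
  refine le_trans (card_union_le _ _) ?_
  rw [Nat.card_Ico, Nat.add_sub_cancel_left]
  refine Nat.add_le_add_right ?_ _
  refine le_trans card_biUnion_le ?_
  refine le_trans (sum_le_card_nsmul _ _ (badCount T (laP M k)) fun i _ => ?_) ?_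
  · rw [badCount_eq]
    exact card_image_le
  · rw [card_range, smul_eq_mul]

/-- WR-E5b (exponent of the number of exceptional blocks after one step). -/
theorem step_bad (M G : ℕ) (hM : 3 ≤ M) (hG : 1 ≤ G) (hGM : G + 2 ≤ M) (T A : Set ℕ) (k0 : ℕ)
    (hcov : ∀ k, k0 ≤ k → ∀ j, 4 * k ^ M + thP M G k + 8 ≤ j → j + 1 ≤ 4 * k ^ M + laP M k →
        (∀ i, i ≤ 5 → CovBlock T (j - 4 * k ^ M - i)) → CovBlock A j)
    (C γ : ℝ) (hγ : 0 ≤ γ) (hT : ∀ J : ℕ, 1 ≤ J → (badCount T J : ℝ) ≤ C * (J : ℝ) ^ γ) :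
    ∃ C' : ℝ, ∀ J : ℕ, 1 ≤ J → (badCount A J : ℝ) ≤
      C' * (J : ℝ) ^ (max (((G : ℝ) + 1) / M) ((1 + ((M : ℝ) - 1) * γ) / M)) := by
  have hC : 0 ≤ C := by
    have h1 := hT 1 le_rfl
    rw [Nat.cast_one, Real.one_rpow, mul_one] at h1
    exact le_trans (Nat.cast_nonneg _) h1
  have hMR : (0 : ℝ) < M := by
    have : 0 < M := by omega
    exact_mod_cast this
  have hM1 : (1 : ℝ) ≤ M := by
    have : 1 ≤ M := by omega
    exact_mod_cast this
  let c : ℝ := 12 * M * 2 ^ (M - 1)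
  have hc : 0 ≤ c := by positivity
  refine ⟨bS M G k0 + 12 * C * c ^ γ + 154 * 2 ^ G, fun J hJ => ?_⟩
  have hJR : (1 : ℝ) ≤ J := by exact_mod_cast hJ
  have hJ0 : (0 : ℝ) ≤ J := le_trans zero_le_one hJR
  let R : ℝ := (J : ℝ) ^ (1 / (M : ℝ))
  have hR1 : 1 ≤ R := Real.one_le_rpow hJR (by positivity)
  have hR0 : 0 ≤ R := le_trans zero_le_one hR1
  have hRM : R ^ M = J := by
    change ((J : ℝ) ^ (1 / (M : ℝ))) ^ M = J
    rw [← Real.rpow_natCast, ← Real.rpow_mul hJ0, one_div, inv_mul_cancel₀ hMR.ne', Real.rpow_one]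
  have hkR : ∀ k ∈ Ks M J, (k : ℝ) < R := by
    intro k hk
    unfold Ks at hk
    rw [mem_filter] at hk
    have h1 : (k : ℝ) ^ M < R ^ M := by
      rw [hRM]
      exact_mod_cast hk.2
    exact lt_of_pow_lt_pow_left₀ M hR0 h1
  have hcard : ((Ks M J).card : ℝ) ≤ 2 * R := by
    have h1 : Ks M J ⊆ range ⌈R⌉₊ := by
      intro k hk
      rw [mem_range]
      exact Nat.lt_ceil.2 (hkR k hk)
    have h2 : ((Ks M J).card : ℝ) ≤ ⌈R⌉₊ := by
      have := card_le_card h1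
      rw [card_range] at this
      exact_mod_cast this
    have h3 := Nat.ceil_lt_add_one hR0
    linarith
  have hgap : ∀ k ∈ Ks M J, ((64 * (k + 1) ^ G + 13 : ℕ) : ℝ) ≤ 77 * (2 ^ G * R ^ G) := by
    intro k hk
    have h1 : ((k : ℝ) + 1) ≤ 2 * R := by
      have := hkR k hk
      linarith
    have h2 : ((k : ℝ) + 1) ^ G ≤ 2 ^ G * R ^ G := by
      rw [← mul_pow]
      exact pow_le_pow_left₀ (by positivity) h1 G
    have h3 : (1 : ℝ) ≤ 2 ^ G * R ^ G := by
      have h4 : (1 : ℝ) ≤ 2 ^ G := one_le_pow₀ (by norm_num)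
      have h5 : 1 ≤ R ^ G := one_le_pow₀ hR1
      nlinarith
    push_cast
    linarith
  have hlam : ∀ k ∈ Ks M J, ((laP M k : ℕ) : ℝ) ≤ c * R ^ (M - 1) := by
    intro k hk
    have h0 : laP M k ≤ 12 * M * (k + 1) ^ (M - 1) := by
      have h1 := laP_add (k := k) (show 1 ≤ M by omega)
      have h2 := pow_succ_le M k
      unfold uP at h1
      have h3 : 4 * ((k + 1) ^ M - k ^ M) ≤ 4 * (M * (k + 1) ^ (M - 1)) := by omega
      have h4 : 12 * M * (k + 1) ^ (M - 1) = 12 * (M * (k + 1) ^ (M - 1)) := by ring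
      omega
    have h1 : ((k : ℝ) + 1) ≤ 2 * R := by
      have := hkR k hk
      linarith
    have h2 : ((k : ℝ) + 1) ^ (M - 1) ≤ 2 ^ (M - 1) * R ^ (M - 1) := by
      rw [← mul_pow]
      exact pow_le_pow_left₀ (by positivity) h1 _
    calc ((laP M k : ℕ) : ℝ) ≤ ((12 * M * (k + 1) ^ (M - 1) : ℕ) : ℝ) := by exact_mod_cast h0
      _ = 12 * M * ((k : ℝ) + 1) ^ (M - 1) := by push_cast; ring
      _ ≤ 12 * M * (2 ^ (M - 1) * R ^ (M - 1)) := mul_le_mul_of_nonneg_left h2 (by positivity)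
      _ = c * R ^ (M - 1) := by
          change _ = 12 * (M : ℝ) * 2 ^ (M - 1) * R ^ (M - 1)
          ring
  have hbad : ∀ k ∈ Ks M J, (badCount T (laP M k) : ℝ) ≤ C * (c ^ γ * (R ^ (M - 1)) ^ γ) := by
    intro k hk
    rcases Nat.eq_zero_or_pos (laP M k) with h0 | hpos
    · have h1 : badCount T (laP M k) = 0 := by
        rw [h0, badCount_eq]
        unfold badSet
        simp
      rw [h1, Nat.cast_zero]
      positivity
    · refine le_trans (hT _ hpos) (mul_le_mul_of_nonneg_left ?_ hC)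
      rw [← Real.mul_rpow hc (by positivity)]
      exact Real.rpow_le_rpow (Nat.cast_nonneg _) (hlam k hk) hγ
  have hmain : (badCount A J : ℝ) ≤ bS M G k0 +
      2 * R * (6 * (C * (c ^ γ * (R ^ (M - 1)) ^ γ)) + 77 * (2 ^ G * R ^ G)) := by
    have h1 := badCount_le (show 1 ≤ M by omega) hcov J
    have h2 : (badCount A J : ℝ) ≤ bS M G k0 + ∑ k ∈ Ks M J,
      (6 * (badCount T (laP M k) : ℝ) + ((64 * (k + 1) ^ G + 13 : ℕ) : ℝ)) := by
      exact_mod_cast h1
    refine le_trans h2 (add_le_add_right ?_ _)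
    have hnn : 0 ≤ 6 * (C * (c ^ γ * (R ^ (M - 1)) ^ γ)) + 77 * (2 ^ G * R ^ G) := by positivity
    refine le_trans (sum_le_card_nsmul _ _
      (6 * (C * (c ^ γ * (R ^ (M - 1)) ^ γ)) + 77 * (2 ^ G * R ^ G)) fun k hk => ?_) ?_
    · have h3 := hbad k hk
      have h4 := hgap k hk
      linarith
    · rw [nsmul_eq_mul]
      exact mul_le_mul_of_nonneg_right hcard hnn
  set e : ℝ := max (((G : ℝ) + 1) / M) ((1 + ((M : ℝ) - 1) * γ) / M) with he
  have he0 : 0 ≤ e := le_trans (by positivity) (le_max_left _ _)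
  have hE1 : R * R ^ G ≤ (J : ℝ) ^ e := by
    have h1 : R * R ^ G = (J : ℝ) ^ (((G : ℝ) + 1) / M) := by
      rw [← pow_succ']
      change ((J : ℝ) ^ (1 / (M : ℝ))) ^ (G + 1) = _
      rw [← Real.rpow_natCast, ← Real.rpow_mul hJ0]
      congr 1
      push_cast
      ring
    rw [h1]
    exact Real.rpow_le_rpow_of_exponent_le hJR (le_max_left _ _)
  have hE2 : R * (R ^ (M - 1)) ^ γ ≤ (J : ℝ) ^ e := by
    have h1 : R * (R ^ (M - 1)) ^ γ = (J : ℝ) ^ ((1 + ((M : ℝ) - 1) * γ) / M) := by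
      have h2 : R ^ (M - 1) = (J : ℝ) ^ (((M : ℝ) - 1) / M) := by
        change ((J : ℝ) ^ (1 / (M : ℝ))) ^ (M - 1) = _
        rw [← Real.rpow_natCast, ← Real.rpow_mul hJ0]
        congr 1
        have h3 : ((M - 1 : ℕ) : ℝ) = (M : ℝ) - 1 := by
          rw [Nat.cast_sub (by omega)]
          norm_num
        rw [h3]
        ring
      rw [h2, ← Real.rpow_mul hJ0]
      change (J : ℝ) ^ (1 / (M : ℝ)) * _ = _
      rw [← Real.rpow_add (by linarith)]
      congr 1
      ring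
    rw [h1]
    exact Real.rpow_le_rpow_of_exponent_le hJR (le_max_right _ _)
  have hE0 : 1 ≤ (J : ℝ) ^ e := Real.one_le_rpow hJR he0
  have hb0 : (0 : ℝ) ≤ bS M G k0 := Nat.cast_nonneg _
  have hcg : 0 ≤ c ^ γ := Real.rpow_nonneg hc _
  calc (badCount A J : ℝ) ≤ bS M G k0 +
      2 * R * (6 * (C * (c ^ γ * (R ^ (M - 1)) ^ γ)) + 77 * (2 ^ G * R ^ G)) := hmain
    _ = bS M G k0 * 1 + 12 * C * c ^ γ * (R * (R ^ (M - 1)) ^ γ) + 154 * 2 ^ G * (R * R ^ G) := by
        ring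
    _ ≤ bS M G k0 * (J : ℝ) ^ e + 12 * C * c ^ γ * (J : ℝ) ^ e + 154 * 2 ^ G * (J : ℝ) ^ e := by
        refine add_le_add (add_le_add (mul_le_mul_of_nonneg_left hE0 hb0)
          (mul_le_mul_of_nonneg_left hE2 (by positivity)))
          (mul_le_mul_of_nonneg_left hE1 (by positivity))
    _ = (bS M G k0 + 12 * C * c ^ γ + 154 * 2 ^ G) * (J : ℝ) ^ e := by ring

end Pool.Agent.Helper52.WR
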